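import Pool.Agent.D0H8.PQ.Num
import Pool.Agent.D0H8.PQ.Mds

set_option autoImplicit false

/-!
# Abundance for nef divisors on quotients `(A × F) / G`: the torus factor can be removed

`A = V / Λ` is a complex torus of dimension `n` and `F` a normal projective `ℚ`-factorial variety with
free class group `Cl(F) = ℤ^ρ` (so `H^1(F, O_F) = 0`). A finite group `G` acts diagonally on `A × F`, in
any way (with fixed points, and permuting the classes of `F`), and `X = (A × F) / G`. If `K_F ~ 0`
and `G` acts freely in codimension one, then `K_X` is torsion, and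
`H^1(X, O_X) = H^1(A, O_A)^G`. By the Beauville-Bogomolov decomposition all klt varieties with torsion
canonical class are of the form `(A × F) / G`, where `F` is a product of Calabi-Yau and irreducible
symplectic varieties; the restriction in the theorem is that `Cl(F)` is free and `F` is `ℚ`-factorial.

The theorem says: every nef divisor on `X` is semiample if and only if `H^1(X, O_X) = 0` and the
`G`-invariant nef classes on `F` are semiample. The last condition is true if `F` is a Mori dream space,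
and also, without any hypothesis on `F`, if the `G`-invariant classes have rank one.

The exponents are explicit. Let `G_F` be the group of the automorphisms of the Cox ring of `F` which
occur, and let `m ≥ 1` be such that `O_F(m β)` is generated by global sections, where `β` is the class on
`F` of the Weil divisor `D`. If `H^1(X, O_X) = 0` and the Chern form of `D` is semidefinite, then
`4 |GL_2n(F_3)|^6 |G_F| m D` is Cartier and base point free. Without the hypothesis on `H^1(X, O_X)`:
`D` is semiample if and only if `β` is semiample and some positive multiple of `D` is effective; if `D` is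
effective, then `4 |GL_2n(F_3)|^8 |G_F| m D` is Cartier and base point free; and if the Chern form of `D`
is semidefinite, then `4 |GL_2n(F_3)|^4 |G_F| m D` is numerically equivalent to a base point free divisor.

The proof: the power of the sheaf with exponent `|G| |G_F|` gives a line bundle on the quotient of `V`
by the image of `Γ`, to which the uniform base point freeness on torus quotients (starting files) is
applied; its sections are multiplied with norms of sections on `F`. For effective divisors: the norms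
of sections can be evaluated at a point of `F`; so one gets a function on `V` which transforms under the
lattice as a section of this line bundle, and the character of the line bundle on the lattice vectors in
the kernel of the Chern form is trivial.

`Cl`, `Semistable`, `SemiampleF`, `IsMoriDream`, `Grp`, `base`, `Inv`, `IsQuotient`, `Sheaf`,
`IsSection`, `IsPowSection`, `IsSemiample` and `IsChern` are defined in `Pool.Agent.X324.CF.Defs`;
`FreeF`, `NefF`, `IsFibre`, `Free`, `Nef`, `Effective`, `autF` and `twist` in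
`Pool.Agent.D0H8.PQ.Defs`; `HOneZero` in `Pool.Agent.TH735.AQ.Defs` and `IsNefForm` in
`Pool.Agent.W594.SYZ.TQDefs`.
-/

namespace Pool.Agent.Results.MP_cda8c3_ag.ProductQuotients

open Pool.Agent.W594.SYZ2 Pool.Agent.TH735.AQ Pool.Agent.X324.CF Pool.Agent.D0H8.PQ

/-- Let `X = (V × F) / Γ` be a quotient of the product of a complex torus of dimension `n` and of a
variety `F`. Every nef sheaf of rank one on `X` is semiample if and only if `H^1(X, O_X) = 0` and the
`Γ`-invariant nef classes on `F` are semiample; with explicit exponents. A sheaf is semiample if and only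
if its class on `F` is and some positive power has a nonzero section. Sheaves with semidefinite Chern form
whose class on `F` is semiample are numerically semiample. The conditions on `F` are satisfied by Mori
dream spaces; and the invariant nef classes are semiample if the invariant classes have rank one. -/
theorem result {V R : Type*} [NormedAddCommGroup V] [NormedSpace ℂ V] [FiniteDimensional ℂ V]
    [CommRing R] [IsDomain R] [Algebra ℂ R] {ρ : ℕ} (n : ℕ) (hn : Module.finrank ℂ V = n)
    (𝒜 : Cl ρ → Submodule ℂ R) [GradedAlgebra 𝒜] (u : Cl ρ) :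
    (∀ (k : ℕ) (x : Fin k → R) (w : Fin k → Cl ρ), IsMoriDream 𝒜 x w u →
      IsFibre 𝒜 u ∧ ∀ β, NefF 𝒜 u β → SemiampleF 𝒜 u β) ∧
    (IsFibre 𝒜 u → ∀ Γ : Grp V R, IsQuotient 𝒜 u Γ →
      -- abundance for `X`
      ((∀ (𝓛 : Sheaf 𝒜 Γ) (H : V → V → ℂ), 𝓛.IsChern H → Nef 𝓛 u H → 𝓛.IsSemiample u) ↔
        HOneZero (base Γ) ∧ ∀ β, Inv 𝒜 Γ β → NefF 𝒜 u β → SemiampleF 𝒜 u β) ∧
      -- the case of rank one
      ((∀ β, Inv 𝒜 Γ β → ∃ a b : ℤ, b ≠ 0 ∧ b • β = a • u) →
        ∀ β, Inv 𝒜 Γ β → NefF 𝒜 u β → SemiampleF 𝒜 u β) ∧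
      -- the exponent if `H^1(X, O_X) = 0`
      (HOneZero (base Γ) → ∀ (𝓛 : Sheaf 𝒜 Γ) (H : V → V → ℂ), 𝓛.IsChern H → IsNefForm H →
        ∀ m : ℕ, 1 ≤ m → FreeF 𝒜 u 𝓛.deg m →
          Free 𝓛 u (4 * Nat.card (GL (Fin (2 * n)) (ZMod 3)) ^ 6 * Nat.card (autF Γ) * m)) ∧
      -- without condition on `H^1(X, O_X)`
      (∀ (𝓛 : Sheaf 𝒜 Γ) (H : V → V → ℂ), 𝓛.IsChern H →
        (𝓛.IsSemiample u ↔ SemiampleF 𝒜 u 𝓛.deg ∧ Effective 𝓛) ∧
        (𝓛.IsSemiample u → Nef 𝓛 u H)) ∧
      (∀ (𝓛 : Sheaf 𝒜 Γ) (H : V → V → ℂ), 𝓛.IsChern H →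
        (∃ f, 𝓛.IsSection f ∧ ∃ v, f v ≠ 0) → ∀ m : ℕ, 1 ≤ m → FreeF 𝒜 u 𝓛.deg m →
          Free 𝓛 u (4 * Nat.card (GL (Fin (2 * n)) (ZMod 3)) ^ 8 * Nat.card (autF Γ) * m)) ∧
      -- numerical abundance
      (∀ (𝓛 : Sheaf 𝒜 Γ) (H : V → V → ℂ), 𝓛.IsChern H → IsNefForm H →
        ∀ m : ℕ, 1 ≤ m → FreeF 𝒜 u 𝓛.deg m → ∃ M : ℕ,
          M = 4 * Nat.card (GL (Fin (2 * n)) (ZMod 3)) ^ 4 * Nat.card (autF Γ) * m ∧
          ∃ 𝓜 : Sheaf 𝒜 Γ, 𝓜.deg = M • 𝓛.deg ∧ 𝓜.IsChern (fun v w => (M : ℂ) * H v w) ∧
            Free 𝓜 u 1) ∧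
      -- the definition of nefness
      (∀ (𝓛 𝓤 : Sheaf 𝒜 Γ) (H H' : V → V → ℂ), 𝓛.IsChern H → 𝓤.IsChern H' →
        (∀ k : ℕ, (twist 𝓛 𝓤 k).IsSemiample u) → Nef 𝓛 u H)) := by
  refine ⟨fun k x w D => ⟨fibre_mds D, fun β hβ => abundant_mds D hβ⟩, fun hF Γ hX =>
    ⟨total_iff hF hX, fun h β hβ hnef => ?_,
    fun h01 𝓛 H hc hH m _ hm => eff_one hX h01 hn hc hH hm,
    fun 𝓛 H hc => ⟨semiample_iff hF hX hc, nef_of_semiample hF hX hc⟩,
    fun 𝓛 H hc ⟨f, hf, h0⟩ m _ hm => eff_two hF hX hn hc hf h0 hm,
    fun 𝓛 H hc hH m _ hm => ⟨_, rfl, numerical hX hn hc hH hm⟩,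
    fun 𝓛 𝓤 H H' hc hc' h => nef_of_twist hF hX hc hc' h⟩⟩
  obtain ⟨a, b, hb, hab⟩ := h β hβ
  exact rank_one hF hb hab hnef

end Pool.Agent.Results.MP_cda8c3_ag.ProductQuotients
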