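import Pool.Agent.D0H90.KT.Defs
import Pool.Agent.D0H90.KT.Data

/-!
# Divisors with very affine complement on varieties with torsion canonical class

Let `X` be a normal projective variety with `K_X ∼_ℚ 0` and `Δ` an effective `ℚ`-divisor such that
`(X, Δ)` is log canonical and `X` is birational to a closed subvariety `W` of a torus: the functions
`z j` generate the function field of `X`. Let `B` be the quotient of `W` by the identity component of
its stabiliser in the torus, `F` its function field, `p` its dimension and `s = n - p`. Suppose:

* `(1 - Δ_P) (p + 2) < e` for the prime divisors `P` of `X` along which some invariant monomial is not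
  a unit; `e` is a natural number which divides the orders along `P` of all elements of `F`;
* if the prime divisor `P` of `X` dominates `B` and some `z j` is not a unit along it, then
  `Δ_P ≥ 1`, or `Δ_P > 0` and the logarithmic forms `dz/z ∧ ... ∧ dz/z` of degree `s` over `F` are
  regular along `P`.

Then `κ (D) = ν (D) ≥ p` for every `ℚ`-divisor `D` on `X` which is `ℚ`-linearly equivalent to a positive
multiple of `Δ`. If `X` is klt and `D` is nef then `D` is semiample, by the theorem of Kawamata (1985)
for the klt pair `(X, ε Δ)`, which is not formalized here.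

Proof: `D` is `ℚ`-linearly equivalent to a positive multiple of `K_X + Δ` (`transfer`); the sections of
`m (K_X + Δ) + A` are bounded above, and constructed, as for weak abundance (`va_grow`).
-/

set_option autoImplicit false

open FF Pool.Agent.W602.GT Pool.Agent.Y172 Pool.Agent.D0H90.KT.Def

namespace Pool.Agent.Results.MP_cda8c3_ag.VeryAffineComplement

/-- Let `(X, Δ)` be a projective log canonical pair of dimension `n = p + s` such that `K_X` is
`ℚ`-linearly trivial, birational to the closed subvariety `W` of a torus with generic point `z`, and
let `p` be the dimension of the quotient `B` of `W` by the identity component of its stabiliser,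
with function field `baseField z`. Suppose that `(1 - Δ_P) * (p + 2) < e`, for some `e` which divides
the orders along `P` of the elements of `baseField z`, if some invariant monomial is not a unit along
the prime divisor `P` of `X`, and that `Δ_P ≥ 1`, or `Δ_P > 0` and the logarithmic forms of degree `s`
over `baseField z` are regular along `P`, if `P` is trivial on `baseField z` and some `z j` is not a
unit along `P`. Then the Iitaka dimension and the numerical dimension of every `ℚ`-divisor `D` which
is `ℚ`-linearly equivalent to a positive multiple of `Δ` are equal, and at least `p`. -/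
theorem result {K : Type} [Field K] [Algebra ℂ K] {N n p s r : ℕ} (y : Fin (N + 1) → K)
    (Δ : Place ℂ K → ℚ) (hX : LcPair y n Δ) (hK : CanonicalTorsion y n)
    (z : Fin r → K) (hz : ∀ j, z j ≠ 0) (hW : IntermediateField.adjoin ℂ (Set.range z) = ⊤)
    (hp : Algebra.trdeg ℂ (baseField z) = p) (hs : n = p + s)
    (hver : ∀ P, IsPrimeDivisor y P → (∃ a, Invariant z a ∧ P.ord (∏ j, z j ^ a j) ≠ 0) →
      ∃ e : ℕ, (∀ f ∈ baseField z, f ≠ 0 → (e : ℤ) ∣ P.ord f) ∧ (1 - Δ P) * (p + 2) < e)
    (hhor : ∀ P, IsPrimeDivisor y P → (∀ f ∈ baseField z, f ≠ 0 → P.ord f = 0) →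
      (∃ j, P.ord (z j) ≠ 0) → 1 ≤ Δ P ∨ (0 < Δ P ∧ LogRegular (baseField z) s z P))
    (D : Place ℂ K → ℚ) (hD : IsDivisor y D) (hDΔ : QMultiple y D Δ) :
    ∃ d : ℕ, p ≤ d ∧ iitakaDim y D = (d : WithBot ℕ) ∧
      ∀ A, Effective y A → Integral y A → numDim y D A = (d : EReal) := by
  obtain ⟨hy, hn, hΔ, hLC⟩ := hX
  obtain ⟨d, hd, hG⟩ := Pool.Agent.D0H90.KT.va_grow hy hn hΔ hLC hz hW rfl hp hs hver hhor
  exact ⟨d, hd, Pool.Agent.D0H90.KT.torsion hn hy hG hK hD hDΔ⟩

end Pool.Agent.Results.MP_cda8c3_ag.VeryAffineComplement
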